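import Pool.Agent.Work.MP_31144c_an.H.All

/-!
The gauges for which the range in Stolz angles at Plessner points is large: a complete
characterisation, for every gauge function.
-/

namespace Pool.Agent.Results.MP_31144c_an.ExactGauge

open Pool.Agent.Work.MP_31144c_an MeasureTheory

theorem result (g : ℝ → ℝ) (r₀ : ℝ) (h0 : 0 < r₀) (h1 : r₀ < 1) : List.TFAE [
      ∃ C : ℝ, 0 < C ∧ IntegrableOn (fun r => Real.exp (-(C * env g r / Real.log (1 / r))) /
        (r * Real.log (1 / r))) (Set.Ioo 0 r₀),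
      Huge g,
      ∀ f : ℂ → ℂ, DifferentiableOn ℂ f (Metric.ball 0 1) → ∀ᵐ θ : ℝ,
        TypeA f (Complex.exp (θ * Complex.I)) ∨ ∃ C δ : ℝ,
          haus g (vals f (Complex.exp (θ * Complex.I))
            (stolz (Complex.exp (θ * Complex.I)) C δ)) ≠ 0,
      ¬ ∃ f : ℂ → ℂ, DifferentiableOn ℂ f (Metric.ball 0 1) ∧ ∀ᵐ θ : ℝ,
        ¬ TypeA f (Complex.exp (θ * Complex.I)) ∧ ∀ C δ : ℝ,
          haus g (vals f (Complex.exp (θ * Complex.I))
            (stolz (Complex.exp (θ * Complex.I)) C δ)) = 0 ∧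
          volume (vals f (Complex.exp (θ * Complex.I))
            (stolz (Complex.exp (θ * Complex.I)) C δ)) = 0] :=
  H.all_gauges g h0 h1

end Pool.Agent.Results.MP_31144c_an.ExactGauge
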